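import Pool.Agent.H51.Hartogs.Range
import Pool.Agent.H59.HartogsW

/-!
# Closed range of the Cauchy-Riemann operator on the ball minus the closed Hartogs triangle

Let `B` be the open ball of radius `2` in `ℂ²`, let `T = {|z| < |w| < 1}` be the Hartogs triangle
and let `Ω = B \ closure T`. The maximal closed operator `∂̄ : L²(Ω) → L²_{0,1}(Ω)` (defined by
the distributional derivatives) has closed range; equivalently `H^{0,1}_{L²}(Ω)` is Hausdorff.

Proof: by Meyers-Serrin it suffices to estimate the distance of a smooth `u` to the kernel by the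
norm of `∂̄u`; expanding in Fourier modes of the torus action this becomes a weighted Poincare
inequality with weight `x^(2m+1) y^(2n+1)` on the domain of moduli `(x, y) = (|z|, |w|)`, with a
constant which does not depend on the mode `(m, n)`. It is proved by moving along horizontal,
vertical and radial segments and circular arcs in the direction in which the weight decreases.
-/

set_option autoImplicit false

open MeasureTheory Set Filter Topology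
open scoped ENNReal ContDiff

namespace Pool.Agent.Results.MP_cbee92_an.ClosedRange

/-- The Hartogs triangle. -/
def Triangle : Set (ℂ × ℂ) := {p | ‖p.1‖ < ‖p.2‖ ∧ ‖p.2‖ < 1}

/-- The ball of radius `2` minus the closed Hartogs triangle. -/
def Omega : Set (ℂ × ℂ) := {p | ‖p.1‖ ^ 2 + ‖p.2‖ ^ 2 < 4} \ closure Triangle

/-- The real directional derivative of `φ` at `p` in the direction `v`. -/
noncomputable def dir (φ : ℂ × ℂ → ℂ) (p v : ℂ × ℂ) : ℂ := fderiv ℝ φ p v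

/-- `∂φ/∂z̄`, `z` the first coordinate. -/
noncomputable def dzbar (φ : ℂ × ℂ → ℂ) (p : ℂ × ℂ) : ℂ :=
  1 / 2 * (dir φ p (1, 0) + Complex.I * dir φ p (Complex.I, 0))

/-- `∂φ/∂w̄`, `w` the second coordinate. -/
noncomputable def dwbar (φ : ℂ × ℂ → ℂ) (p : ℂ × ℂ) : ℂ :=
  1 / 2 * (dir φ p (0, 1) + Complex.I * dir φ p (0, Complex.I))

/-- Lebesgue measure on `Omega`. -/
noncomputable def lebOmega : Measure (ℂ × ℂ) := volume.restrict Omega

/-- Test functions on `Omega`: smooth with compact support contained in `Omega`. -/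
def IsTest (φ : ℂ × ℂ → ℂ) : Prop :=
  ContDiff ℝ ∞ φ ∧ HasCompactSupport φ ∧ tsupport φ ⊆ Omega

/-- `∂̄u = f₁ dz̄ + f₂ dw̄` in the sense of distributions on `Omega`. -/
def IsDbar (u f₁ f₂ : ℂ × ℂ → ℂ) : Prop :=
  ∀ φ : ℂ × ℂ → ℂ, IsTest φ →
    ∫ p, u p * dzbar φ p ∂lebOmega = - ∫ p, f₁ p * φ p ∂lebOmega ∧
    ∫ p, u p * dwbar φ p ∂lebOmega = - ∫ p, f₂ p * φ p ∂lebOmega

/-- The pair `(f₁, f₂)`, i.e. the form `f₁ dz̄ + f₂ dw̄`, lies in the range of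
`∂̄ : L²(Omega) → L²_{0,1}(Omega)`. -/
def InRange (f₁ f₂ : ℂ × ℂ → ℂ) : Prop :=
  MemLp f₁ 2 lebOmega ∧ MemLp f₂ 2 lebOmega ∧ ∃ u, MemLp u 2 lebOmega ∧ IsDbar u f₁ f₂

/-- The range of `∂̄ : L²(Omega) → L²_{0,1}(Omega)` is closed: if forms in the range converge in
`L²(Omega)` to a form `g₁ dz̄ + g₂ dw̄` in `L²(Omega)`, then the limit is in the range. -/
theorem result (f₁ f₂ : ℕ → ℂ × ℂ → ℂ) (g₁ g₂ : ℂ × ℂ → ℂ)
    (hf : ∀ n, InRange (f₁ n) (f₂ n)) (hg₁ : MemLp g₁ 2 lebOmega) (hg₂ : MemLp g₂ 2 lebOmega)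
    (h₁ : Tendsto (fun n => eLpNorm (f₁ n - g₁) 2 lebOmega) atTop (𝓝 0))
    (h₂ : Tendsto (fun n => eLpNorm (f₂ n - g₂) 2 lebOmega) atTop (𝓝 0)) :
    InRange g₁ g₂ := by
  obtain ⟨C, hC⟩ := H51.Hartogs.weighted
  have hcl := H51.HT.closed_range (C := C) hC
  have hd : ∀ u v w : ℂ × ℂ → ℂ, IsDbar u v w ↔ H51.HT.IsDbar u v w := fun u v w =>
    ⟨fun h φ a b c => h φ ⟨a, b, c⟩, fun h φ hφ => h φ hφ.1 hφ.2.1 hφ.2.2⟩
  have hm1 : ∀ n, MemLp (f₁ n) 2 (volume.restrict H51.HT.Om) := fun n => (hf n).1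
  have hm2 : ∀ n, MemLp (f₂ n) 2 (volume.restrict H51.HT.Om) := fun n => (hf n).2.1
  have hn1 : MemLp g₁ 2 (volume.restrict H51.HT.Om) := hg₁
  have hn2 : MemLp g₂ 2 (volume.restrict H51.HT.Om) := hg₂
  have t1 : Tendsto (fun n => (hm1 n).toLp (f₁ n)) atTop (𝓝 (hn1.toLp g₁)) :=
    (Lp.tendsto_Lp_iff_tendsto_eLpNorm'' (f := f₁) hm1 g₁ hn1).2 h₁
  have t2 : Tendsto (fun n => (hm2 n).toLp (f₂ n)) atTop (𝓝 (hn2.toLp g₂)) :=
    (Lp.tendsto_Lp_iff_tendsto_eLpNorm'' (f := f₂) hm2 g₂ hn2).2 h₂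
  have hmem : ∀ n, ((hm1 n).toLp (f₁ n), (hm2 n).toLp (f₂ n)) ∈
      {f : H51.HT.HOm × H51.HT.HOm | ∃ u : H51.HT.HOm, H51.HT.IsDbar u f.1 f.2} := by
    intro n
    obtain ⟨-, -, u, hu, hu2⟩ := hf n
    have hu' : MemLp u 2 (volume.restrict H51.HT.Om) := hu
    exact ⟨hu'.toLp u, H51.HT.isDbar_congr ((hd _ _ _).1 hu2) hu'.coeFn_toLp.symm
      (hm1 n).coeFn_toLp.symm (hm2 n).coeFn_toLp.symm⟩
  obtain ⟨u, hu⟩ := hcl.mem_of_tendsto (t1.prodMk_nhds t2) (Eventually.of_forall hmem)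
  refine ⟨hg₁, hg₂, u, Lp.memLp u, (hd _ _ _).2 ?_⟩
  exact H51.HT.isDbar_congr hu (ae_eq_refl _) hn1.coeFn_toLp hn2.coeFn_toLp

end Pool.Agent.Results.MP_cbee92_an.ClosedRange
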